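import Pool.Agent.K7.H87.FJ3.Hnn

/-!
# Polyhedral products of pairs of groups
-/

set_option autoImplicit false

namespace Pool.Agent.K7.H87.FJ4

open Monoid Pool.Agent.R684.FP Pool.Agent.Y110.FJ Pool.Agent.K7.H87.FJ3
open Pool.Agent.R941.FJ (C_cyc C_le C_equiv)

section defs

variable {V : Type} (Λ : SimpleGraph V) (G : V → Type) [∀ v, Group (G v)] (H : ∀ v, Subgroup (G v))

/-- the commutation relations of the polyhedral product: `a ∈ G u` and `b ∈ G v` with `u ≠ v` commute if
`u` and `v` are adjacent, or `a ∈ H u`, or `b ∈ H v` -/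
def rel : Set (CoprodI G) :=
  {r | ∃ (u v : V) (a : G u) (b : G v), u ≠ v ∧ (Λ.Adj u v ∨ a ∈ H u ∨ b ∈ H v) ∧
    r = CoprodI.of a * CoprodI.of b * (CoprodI.of a)⁻¹ * (CoprodI.of b)⁻¹}

/-- the polyhedral product of the pairs `(G v, H v)` over the flag complex of the graph `Λ` -/
abbrev PP : Type := CoprodI G ⧸ Subgroup.normalClosure (rel Λ G H)

/-- the inclusion of a vertex group -/
def PP.of (v : V) : G v →* PP Λ G H :=
  (QuotientGroup.mk' (Subgroup.normalClosure (rel Λ G H))).comp CoprodI.of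

end defs

namespace PP

variable {V : Type} {Λ : SimpleGraph V} {G : V → Type} [∀ v, Group (G v)] {H : ∀ v, Subgroup (G v)}

theorem comm {u v : V} (a : G u) (b : G v) (huv : u ≠ v) (h : Λ.Adj u v ∨ a ∈ H u ∨ b ∈ H v) :
    Commute (of Λ G H u a) (of Λ G H v b) := by
  have h1 : (QuotientGroup.mk' (Subgroup.normalClosure (rel Λ G H)))
      (CoprodI.of a * CoprodI.of b * (CoprodI.of a)⁻¹ * (CoprodI.of b)⁻¹) = 1 :=
    (QuotientGroup.eq_one_iff _).2 (Subgroup.subset_normalClosure ⟨u, v, a, b, huv, h, rfl⟩)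
  rw [map_mul, map_inv, mul_inv_eq_one, map_mul, map_inv, mul_inv_eq_iff_eq_mul, map_mul] at h1
  exact h1

variable {K : Type} [Group K]

/-- the universal property -/
def lift (f : ∀ v, G v →* K) (hf : ∀ (u v : V) (a : G u) (b : G v), u ≠ v →
    (Λ.Adj u v ∨ a ∈ H u ∨ b ∈ H v) → Commute (f u a) (f v b)) : PP Λ G H →* K :=
  QuotientGroup.lift _ (CoprodI.lift f) (by
    have h1 : Subgroup.normalClosure (rel Λ G H) ≤ (CoprodI.lift f).ker := by
      refine Subgroup.normalClosure_le_normal ?_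
      rintro _ ⟨u, v, a, b, huv, h, rfl⟩
      show CoprodI.lift f _ = 1
      rw [map_mul, map_inv, mul_inv_eq_one, map_mul, map_inv, mul_inv_eq_iff_eq_mul, map_mul,
        CoprodI.lift_of, CoprodI.lift_of]
      exact hf u v a b huv h
    exact fun x hx => h1 hx)

@[simp] theorem lift_of (f : ∀ v, G v →* K) (hf) (v : V) (a : G v) :
    lift (Λ := Λ) (H := H) f hf (of Λ G H v a) = f v a := by
  show CoprodI.lift f (CoprodI.of a) = _
  rw [CoprodI.lift_of]

theorem ext {f g : PP Λ G H →* K} (h : ∀ v (a : G v), f (of Λ G H v a) = g (of Λ G H v a)) :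
    f = g := by
  apply QuotientGroup.monoidHom_ext
  apply CoprodI.ext_hom
  intro v
  ext a
  exact h v a

/-- the subgroup generated by the vertex groups of the vertices in `S` -/
def sub (Λ : SimpleGraph V) (G : V → Type) [∀ v, Group (G v)] (H : ∀ v, Subgroup (G v)) (S : Set V) :
    Subgroup (PP Λ G H) :=
  Subgroup.closure {x | ∃ v ∈ S, ∃ a : G v, x = of Λ G H v a}

theorem of_mem_sub {S : Set V} {v : V} (hv : v ∈ S) (a : G v) : of Λ G H v a ∈ sub Λ G H S :=
  Subgroup.subset_closure ⟨v, hv, a, rfl⟩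

theorem sub_mono {S T : Set V} (h : S ⊆ T) : sub Λ G H S ≤ sub Λ G H T :=
  Subgroup.closure_mono fun _ ⟨v, hv, a, hx⟩ => ⟨v, h hv, a, hx⟩

theorem sub_le {S : Set V} {L : Subgroup (PP Λ G H)} (h : ∀ v ∈ S, ∀ a, of Λ G H v a ∈ L) :
    sub Λ G H S ≤ L := by
  refine (Subgroup.closure_le _).2 ?_
  rintro _ ⟨v, hv, a, rfl⟩
  exact h v hv a

theorem sub_univ : sub Λ G H Set.univ = ⊤ := by
  rw [eq_top_iff]
  have h1 : (QuotientGroup.mk' (Subgroup.normalClosure (rel Λ G H))).range = ⊤ :=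
    MonoidHom.range_eq_top.2 (QuotientGroup.mk'_surjective _)
  rw [← h1]
  rintro _ ⟨x, rfl⟩
  induction x using CoprodI.induction_on with
  | one => rw [map_one]; exact Subgroup.one_mem _
  | of i m => exact of_mem_sub (Set.mem_univ i) m
  | mul x y hx hy => rw [map_mul]; exact Subgroup.mul_mem _ hx hy

open Classical in
/-- the retraction onto the subgroup generated by the vertex groups of the vertices in `S` -/
noncomputable def ret (Λ : SimpleGraph V) (G : V → Type) [∀ v, Group (G v)]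
    (H : ∀ v, Subgroup (G v)) (S : Set V) : PP Λ G H →* PP Λ G H :=
  lift (fun v => if v ∈ S then of Λ G H v else 1) (by
    intro u v a b huv h
    by_cases hu : u ∈ S
    · by_cases hv : v ∈ S
      · rw [if_pos hu, if_pos hv]
        exact comm a b huv h
      · rw [if_neg hv]
        exact Commute.one_right _
    · rw [if_neg hu]
      exact Commute.one_left _)

theorem ret_of_mem {S : Set V} {v : V} (hv : v ∈ S) (a : G v) :
    ret Λ G H S (of Λ G H v a) = of Λ G H v a := by
  unfold ret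
  rw [lift_of, if_pos hv]

theorem ret_of_not_mem {S : Set V} {v : V} (hv : v ∉ S) (a : G v) :
    ret Λ G H S (of Λ G H v a) = 1 := by
  unfold ret
  rw [lift_of, if_neg hv]
  rfl

theorem ret_mem (S : Set V) (x : PP Λ G H) : ret Λ G H S x ∈ sub Λ G H S := by
  have h1 : (⊤ : Subgroup (PP Λ G H)) ≤ (sub Λ G H S).comap (ret Λ G H S) := by
    rw [← sub_univ]
    refine sub_le fun v _ a => ?_
    rw [Subgroup.mem_comap]
    by_cases hv : v ∈ S
    · rw [ret_of_mem hv]
      exact of_mem_sub hv a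
    · rw [ret_of_not_mem hv]
      exact Subgroup.one_mem _
  exact h1 (Subgroup.mem_top x)

theorem ret_of_sub {S T : Set V} (hST : T ⊆ S) {x : PP Λ G H} (hx : x ∈ sub Λ G H T) :
    ret Λ G H S x = x := by
  have h1 : sub Λ G H T ≤ (ret Λ G H S).eqLocus (MonoidHom.id _) := by
    refine sub_le fun v hv a => ?_
    show ret Λ G H S (of Λ G H v a) = of Λ G H v a
    exact ret_of_mem (hST hv) a
  exact h1 hx

theorem ret_of_disj {S T : Set V} (hST : Disjoint S T) {x : PP Λ G H} (hx : x ∈ sub Λ G H T) :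
    ret Λ G H S x = 1 := by
  have h1 : sub Λ G H T ≤ (ret Λ G H S).ker := by
    refine sub_le fun v hv a => ?_
    exact ret_of_not_mem (fun h => (Set.disjoint_left.1 hST) h hv) a
  exact h1 hx

open Classical in
theorem of_injective (v : V) : Function.Injective (of Λ G H v) := by
  let f : PP Λ G H →* (∀ v, G v) := lift (fun v => MonoidHom.mulSingle G v) (by
    intro u v a b huv _
    exact Pi.mulSingle_commute huv a b)
  intro a b hab
  have h1 := congrArg f hab
  have h2 : ∀ a : G v, f (of Λ G H v a) = Pi.mulSingle v a := fun a => lift_of _ _ _ _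
  rw [h2, h2] at h1
  exact Pi.mulSingle_injective v h1

end PP

/-- commuting subgroups with two retractions -/
theorem two_ret {G : Type} [Group G] {X Y : Subgroup G} (hXY : ∀ x ∈ X, ∀ y ∈ Y, Commute x y)
    (r s : G →* G) (hrX : ∀ x ∈ X, r x = x) (hrY : ∀ y ∈ Y, r y = 1) (hsX : ∀ x ∈ X, s x = 1)
    (hsY : ∀ y ∈ Y, s y = y) {g : G} (hg : g ∈ X ⊔ Y) : r g ∈ X ∧ s g ∈ Y ∧ r g * s g = g := by
  let m : X × Y →* G := MonoidHom.noncommCoprod X.subtype Y.subtype
    (fun x y => hXY x.1 x.2 y.1 y.2)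
  have h1 : X ⊔ Y ≤ m.range := by
    refine sup_le ?_ ?_
    · intro x hx
      refine ⟨(⟨x, hx⟩, 1), ?_⟩
      show x * 1 = x
      rw [mul_one]
    · intro y hy
      refine ⟨(1, ⟨y, hy⟩), ?_⟩
      show 1 * y = y
      rw [one_mul]
  obtain ⟨⟨x, y⟩, hxy⟩ := h1 hg
  have h2 : x.1 * y.1 = g := hxy
  rw [← h2, map_mul, map_mul, hrX x.1 x.2, hrY y.1 y.2, hsX x.1 x.2, hsY y.1 y.2, mul_one, one_mul]
  exact ⟨x.2, y.2, rfl⟩

variable {C : ∀ (G : Type) [Group G], Prop}

/-- a group embeds in an amalgam -/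
theorem amalgam_internal (hC : ClosedE C) (hFb : FbC C) {P Q : Type} [Group P] [Group Q]
    (A : Bool → Subgroup P) (K T : Subgroup P) (hK : ∀ i, K ≤ A i) (hT : T ≤ A true ⊔ A false)
    (ψ : P →* PushoutI (fun i => Subgroup.inclusion (hK i)))
    (hψ : ∀ i (x : A i), ψ x.1 = PushoutI.of (φ := fun i => Subgroup.inclusion (hK i)) i x)
    (f : P →* Q) (hf : ∀ x ∈ K, f x = 1 → x = 1) (hA : ∀ i, C (A i)) (hQ : C Q) : C T := by
  let η : PushoutI (fun i => Subgroup.inclusion (hK i)) →* P :=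
    PushoutI.lift (fun i => (A i).subtype) K.subtype (fun i => rfl)
  have hη : ∀ i (x : A i), η (PushoutI.of (φ := fun i => Subgroup.inclusion (hK i)) i x) = x.1 :=
    fun i x => PushoutI.lift_of _ _ _ _
  have hb : ∀ x : K, η (PushoutI.base (fun i => Subgroup.inclusion (hK i)) x) = x.1 :=
    fun x => PushoutI.lift_base _ _ _ _
  have h1 : ψ.comp η = MonoidHom.id _ := by
    apply PushoutI.hom_ext_nonempty
    intro i
    ext x
    show ψ (η (PushoutI.of i x)) = PushoutI.of i x
    rw [hη, hψ]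
  have h2 : ∀ y, ψ (η y) = y := fun y => DFunLike.congr_fun h1 y
  have h3 : T ≤ η.range := by
    refine hT.trans (sup_le ?_ ?_)
    · intro x hx
      exact ⟨_, hη true ⟨x, hx⟩⟩
    · intro x hx
      exact ⟨_, hη false ⟨x, hx⟩⟩
  have h4 : C (PushoutI (fun i => Subgroup.inclusion (hK i))) := by
    refine amalgam_closed _ hC hFb (fun i => Subgroup.inclusion_injective _) (f.comp η) ?_ hA hQ
    refine (injective_iff_map_eq_one _).2 fun x hx => ?_
    have h5 : f x.1 = 1 := by
      rw [← hb x]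
      exact hx
    exact Subtype.ext (hf x.1 x.2 h5)
  refine hC.base.of_injective _ _ (ψ.comp T.subtype) ?_ h4
  intro x y hxy
  have h5 : ψ x.1 = ψ y.1 := hxy
  obtain ⟨x', hx'⟩ := h3 x.2
  obtain ⟨y', hy'⟩ := h3 y.2
  rw [← hx', ← hy', h2, h2] at h5
  exact Subtype.ext (by rw [← hx', ← hy', h5])

namespace PP

variable {V : Type} {Λ : SimpleGraph V} {G : V → Type} [∀ v, Group (G v)] {H : ∀ v, Subgroup (G v)}

open Classical in
theorem insert_closed (hC : ClosedE C) (hFb : FbC C) (hG : ∀ v, C (G v)) (S : Set V) (v : V)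
    (hv : v ∉ S) (hS : C (sub Λ G H S)) : C (sub Λ G H (insert v S)) := by
  let Hv : Subgroup (PP Λ G H) := (H v).map (of Λ G H v)
  let Gv : Subgroup (PP Λ G H) := (of Λ G H v).range
  let L : Subgroup (PP Λ G H) := Subgroup.closure
    {x | ∃ u ∈ S, ∃ a : G u, (Λ.Adj u v ∨ a ∈ H u) ∧ x = of Λ G H u a}
  have hHG : Hv ≤ Gv := by
    rintro _ ⟨h, _, rfl⟩
    exact ⟨h, rfl⟩
  have hLS : L ≤ sub Λ G H S := by
    refine (Subgroup.closure_le _).2 ?_
    rintro _ ⟨u, hu, a, _, rfl⟩
    exact of_mem_sub hu a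
  let A : Bool → Subgroup (PP Λ G H) := fun i => if i then sub Λ G H S ⊔ Hv else L ⊔ Gv
  have hAt : A true = sub Λ G H S ⊔ Hv := rfl
  have hAf : A false = L ⊔ Gv := rfl
  let K : Subgroup (PP Λ G H) := L ⊔ Hv
  have hK : ∀ i, K ≤ A i := by
    intro i
    cases i
    · exact sup_le_sup le_rfl hHG
    · exact sup_le_sup hLS le_rfl
  -- commutation
  have hc1 : ∀ x ∈ sub Λ G H S, ∀ y ∈ Hv, Commute x y := by
    rintro x hx _ ⟨h, hh, rfl⟩
    have h1 : sub Λ G H S ≤ Subgroup.centralizer {of Λ G H v h} := by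
      refine sub_le fun u hu a => ?_
      rw [Subgroup.mem_centralizer_iff]
      rintro _ rfl
      exact (comm a h (fun e => hv (e ▸ hu)) (Or.inr (Or.inr hh))).symm
    exact ((Subgroup.mem_centralizer_iff.1 (h1 hx)) _ rfl).symm
  have hc2 : ∀ x ∈ L, ∀ y ∈ Gv, Commute x y := by
    rintro x hx _ ⟨h, rfl⟩
    have h1 : L ≤ Subgroup.centralizer {of Λ G H v h} := by
      refine (Subgroup.closure_le _).2 ?_
      rintro _ ⟨u, hu, a, ha, rfl⟩
      rw [SetLike.mem_coe, Subgroup.mem_centralizer_iff]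
      rintro _ rfl
      refine (comm a h (fun e => hv (e ▸ hu)) ?_).symm
      rcases ha with ha | ha
      · exact Or.inl ha
      · exact Or.inr (Or.inl ha)
    exact ((Subgroup.mem_centralizer_iff.1 (h1 hx)) _ rfl).symm
  -- the retractions
  have hGv : Gv ≤ sub Λ G H {v} := by
    rintro _ ⟨a, rfl⟩
    exact of_mem_sub (Set.mem_singleton v) a
  have hd : Disjoint S {v} := Set.disjoint_singleton_right.2 hv
  have r1 : ∀ x ∈ sub Λ G H S, ret Λ G H S x = x := fun x hx => ret_of_sub le_rfl hx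
  have r2 : ∀ x ∈ Gv, ret Λ G H S x = 1 := fun x hx => ret_of_disj hd (hGv hx)
  have r3 : ∀ x ∈ sub Λ G H S, ret Λ G H {v} x = 1 := fun x hx => ret_of_disj hd.symm hx
  have r4 : ∀ x ∈ Gv, ret Λ G H {v} x = x := fun x hx => ret_of_sub le_rfl (hGv hx)
  have hP1 : ∀ x ∈ A true, ret Λ G H S x * ret Λ G H {v} x = x := by
    intro x hx
    exact (two_ret hc1 _ _ r1 (fun y hy => r2 y (hHG hy)) r3 (fun y hy => r4 y (hHG hy)) hx).2.2
  have hP2 : ∀ x ∈ A false, ret Λ G H S x * ret Λ G H {v} x = x := by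
    intro x hx
    exact (two_ret hc2 _ _ (fun y hy => r1 y (hLS hy)) r2 (fun y hy => r3 y (hLS hy)) r4 hx).2.2
  have hP : ∀ i, ∀ x ∈ A i, ret Λ G H S x * ret Λ G H {v} x = x := by
    intro i
    cases i
    · exact hP2
    · exact hP1
  -- the homomorphism to a product
  let f : PP Λ G H →* sub Λ G H S × sub Λ G H {v} :=
    ((ret Λ G H S).codRestrict _ (ret_mem S)).prod ((ret Λ G H {v}).codRestrict _ (ret_mem {v}))
  have hf : ∀ i, ∀ x ∈ A i, f x = 1 → x = 1 := by
    intro i x hx h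
    have h1 : ret Λ G H S x = 1 := congrArg (fun z => (z.1 : PP Λ G H)) h
    have h2 : ret Λ G H {v} x = 1 := congrArg (fun z => (z.2 : PP Λ G H)) h
    rw [← hP i x hx, h1, h2, one_mul]
  have hCv : C (sub Λ G H {v}) := by
    have h1 : sub Λ G H {v} ≤ Gv := by
      refine sub_le ?_
      rintro _ rfl a
      exact ⟨a, rfl⟩
    exact C_le hC.base h1 (C_equiv hC.base (MonoidHom.ofInjective (of_injective v)).symm (hG v))
  have hQ : C (sub Λ G H S × sub Λ G H {v}) := hC.base.prod _ _ hS hCv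
  have hA : ∀ i, C (A i) := by
    intro i
    refine hC.base.of_injective _ _ (f.comp (A i).subtype) ?_ hQ
    refine (injective_iff_map_eq_one _).2 fun x hx => ?_
    exact Subtype.ext (hf i x.1 x.2 hx)
  -- the homomorphism to the amalgam
  have mS : ∀ {u : V} (_ : u ∈ S) (a : G u), of Λ G H u a ∈ A true := fun {u} hu a =>
    (le_sup_left : sub Λ G H S ≤ _) (of_mem_sub hu a)
  have mv : ∀ a : G v, of Λ G H v a ∈ A false := fun a => (le_sup_right : Gv ≤ _) ⟨a, rfl⟩
  have mL : ∀ {u : V} (_ : u ∈ S) (a : G u), Λ.Adj u v ∨ a ∈ H u → of Λ G H u a ∈ K :=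
    fun {u} hu a ha => (le_sup_left : L ≤ _) (Subgroup.subset_closure ⟨u, hu, a, ha, rfl⟩)
  have mH : ∀ a ∈ H v, of Λ G H v a ∈ K := fun a ha => (le_sup_right : Hv ≤ _) ⟨a, ha, rfl⟩
  let φ : ∀ i, K →* A i := fun i => Subgroup.inclusion (hK i)
  have hbase : ∀ (x : PP Λ G H) (hx : x ∈ K) (i j : Bool),
      PushoutI.of (φ := φ) i ⟨x, hK i hx⟩ = PushoutI.of (φ := φ) j ⟨x, hK j hx⟩ := by
    intro x hx i j
    have h1 : ∀ i, PushoutI.of (φ := φ) i ⟨x, hK i hx⟩ = PushoutI.base φ ⟨x, hx⟩ := fun i =>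
      PushoutI.of_apply_eq_base φ i ⟨x, hx⟩
    rw [h1, h1]
  let g : ∀ u, G u →* PushoutI φ := fun u =>
    if hu : u ∈ S then (PushoutI.of (φ := φ) true).comp ((of Λ G H u).codRestrict _ (mS hu))
    else if hu' : v = u then
      (PushoutI.of (φ := φ) false).comp ((of Λ G H u).codRestrict _ (by subst hu'; exact mv))
    else 1
  have gS : ∀ {u : V} (hu : u ∈ S) (a : G u), g u a = PushoutI.of (φ := φ) true ⟨_, mS hu a⟩ := by
    intro u hu a
    show (dite _ _ _ : G u →* PushoutI φ) a = _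
    rw [dif_pos hu]
    rfl
  have gv : ∀ a : G v, g v a = PushoutI.of (φ := φ) false ⟨_, mv a⟩ := by
    intro a
    show (dite _ _ _ : G v →* PushoutI φ) a = _
    rw [dif_neg hv, dif_pos rfl]
    rfl
  have go : ∀ {u : V} (_ : u ∉ S) (_ : v ≠ u) (a : G u), g u a = 1 := by
    intro u hu hu' a
    show (dite _ _ _ : G u →* PushoutI φ) a = _
    rw [dif_neg hu, dif_neg hu']
    rfl
  have gcomm : ∀ (u : V) (a : G u) (b : G v), u ∈ S → (Λ.Adj u v ∨ a ∈ H u ∨ b ∈ H v) →
      Commute (g u a) (g v b) := by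
    intro u a b hu h
    have huv : u ≠ v := fun e => hv (e ▸ hu)
    rw [gS hu, gv]
    have hcm := comm a b huv h
    by_cases h1 : Λ.Adj u v ∨ a ∈ H u
    · rw [hbase _ (mL hu a h1) true false]
      show _ * _ = _ * _
      rw [← map_mul, ← map_mul]
      congr 1
      exact Subtype.ext hcm
    · have h2 : b ∈ H v := by tauto
      rw [hbase _ (mH b h2) false true]
      show _ * _ = _ * _
      rw [← map_mul, ← map_mul]
      congr 1
      exact Subtype.ext hcm
  let ψ : PP Λ G H →* PushoutI φ := lift g (by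
    intro u w a b huw h
    by_cases hu : u ∈ S
    · by_cases hw : w ∈ S
      · rw [gS hu, gS hw]
        show _ * _ = _ * _
        rw [← map_mul, ← map_mul]
        congr 1
        exact Subtype.ext (comm a b huw h)
      · by_cases hw' : v = w
        · subst hw'
          exact gcomm u a b hu h
        · rw [go hw hw']
          exact Commute.one_right _
    · by_cases hu' : v = u
      · subst hu'
        by_cases hw : w ∈ S
        · refine (gcomm w b a hw ?_).symm
          rcases h with h | h | h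
          · exact Or.inl h.symm
          · exact Or.inr (Or.inr h)
          · exact Or.inr (Or.inl h)
        · rw [go hw huw]
          exact Commute.one_right _
      · rw [go hu hu']
        exact Commute.one_left _)
  have hψo : ∀ (u : V) (a : G u), ψ (of Λ G H u a) = g u a := fun u a => lift_of _ _ _ _
  have key : ∀ (i : Bool) (X : Subgroup (PP Λ G H)) (hX : X ≤ A i) (E : Set (PP Λ G H))
      (hE : X = Subgroup.closure E), (∀ x (hx : x ∈ E), ψ x = PushoutI.of (φ := φ) i
        ⟨x, hX (hE ▸ Subgroup.subset_closure hx)⟩) → ∀ x (hx : x ∈ X), ψ x =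
        PushoutI.of (φ := φ) i ⟨x, hX hx⟩ := by
    intro i X hX E hE h x hx
    subst hE
    have h1 : Subgroup.closure E ≤ ((ψ.comp (A i).subtype).eqLocus (PushoutI.of (φ := φ) i)).map
        (A i).subtype := by
      refine (Subgroup.closure_le _).2 ?_
      intro y hy
      exact ⟨⟨y, hX (Subgroup.subset_closure hy)⟩, h y hy, rfl⟩
    obtain ⟨y, hy, hyx⟩ := h1 hx
    subst hyx
    exact hy
  have key2 : ∀ (i : Bool) (X Y : Subgroup (PP Λ G H)) (hX : X ≤ A i) (hY : Y ≤ A i)
      (hXY : A i = X ⊔ Y), (∀ x (hx : x ∈ X), ψ x = PushoutI.of (φ := φ) i ⟨x, hX hx⟩) →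
      (∀ x (hx : x ∈ Y), ψ x = PushoutI.of (φ := φ) i ⟨x, hY hx⟩) →
      ∀ x : A i, ψ x.1 = PushoutI.of (φ := φ) i x := by
    intro i X Y hX hY hXY h1 h2 x
    have h3 : A i ≤ ((ψ.comp (A i).subtype).eqLocus (PushoutI.of (φ := φ) i)).map
        (A i).subtype := by
      conv_lhs => rw [hXY]
      refine sup_le ?_ ?_
      · intro y hy
        exact ⟨⟨y, hX hy⟩, h1 y hy, rfl⟩
      · intro y hy
        exact ⟨⟨y, hY hy⟩, h2 y hy, rfl⟩
    obtain ⟨y, hy, hyx⟩ := h3 x.2
    have h4 : y = x := Subtype.ext hyx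
    subst h4
    exact hy
  refine amalgam_internal hC hFb A K (sub Λ G H (insert v S)) hK ?_ ψ ?_ f (fun x hx => hf true x
    (hK true hx)) hA hQ
  · refine sub_le fun u hu a => ?_
    rcases hu with rfl | hu
    · exact (le_sup_right : A false ≤ _) (mv a)
    · exact (le_sup_left : A true ≤ _) (mS hu a)
  · intro i
    cases i
    · refine key2 false L Gv le_sup_left le_sup_right rfl ?_ ?_
      · refine key false L le_sup_left _ rfl ?_
        rintro _ ⟨u, hu, a, ha, rfl⟩
        rw [hψo, gS hu]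
        exact hbase _ (mL hu a ha) true false
      · rintro _ ⟨a, rfl⟩
        rw [hψo, gv]
    · refine key2 true (sub Λ G H S) Hv le_sup_left le_sup_right rfl ?_ ?_
      · refine key true _ le_sup_left _ rfl ?_
        rintro _ ⟨u, hu, a, rfl⟩
        rw [hψo, gS hu]
      · rintro _ ⟨a, ha, rfl⟩
        rw [hψo, gv]
        exact hbase _ (mH a ha) false true

theorem finset_closed (hC : ClosedE C) (hFb : FbC C) (hG : ∀ v, C (G v)) (S : Finset V) :
    C (sub Λ G H (S : Set V)) := by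
  classical
  induction S using Finset.induction_on with
  | empty =>
    have h1 : sub Λ G H ((∅ : Finset V) : Set V) = ⊥ := by
      rw [eq_bot_iff]
      refine sub_le fun v hv => ?_
      simp at hv
    rw [h1]
    exact Pool.Agent.Y430.SS.of_finite hC.base _ inferInstance
  | insert v S hv ih =>
    rw [Finset.coe_insert]
    exact insert_closed hC hFb hG _ v (by simpa using hv) ih

/-- **polyhedral products** -/
theorem closed (hC : ClosedE C) (hFb : FbC C) (hG : ∀ v, C (G v)) : C (PP Λ G H) := by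
  classical
  refine Pool.Agent.Y430.SS.of_directed hC.base (PP Λ G H) (Finset V) (fun i j => ?_)
    (fun S => sub Λ G H (S : Set V)) (fun S T h => sub_mono (by exact_mod_cast h)) ?_
    (fun S => finset_closed hC hFb hG S)
  · exact ⟨i ∪ j, Finset.subset_union_left, Finset.subset_union_right⟩
  · intro x
    have hx : x ∈ sub Λ G H Set.univ := by rw [sub_univ]; exact Subgroup.mem_top x
    unfold sub at hx
    induction hx using Subgroup.closure_induction with
    | mem x hx =>
      obtain ⟨v, _, a, rfl⟩ := hx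
      exact ⟨{v}, of_mem_sub (by simp) a⟩
    | one => exact ⟨∅, Subgroup.one_mem _⟩
    | mul x y _ _ hx hy =>
      obtain ⟨S, hS⟩ := hx
      obtain ⟨T, hT⟩ := hy
      refine ⟨S ∪ T, Subgroup.mul_mem _ (sub_mono ?_ hS) (sub_mono ?_ hT)⟩
      · rw [Finset.coe_union]; exact Set.subset_union_left
      · rw [Finset.coe_union]; exact Set.subset_union_right
    | inv x _ hx =>
      obtain ⟨S, hS⟩ := hx
      exact ⟨S, Subgroup.inv_mem _ hS⟩

end PP

end Pool.Agent.K7.H87.FJ4
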